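import Mathlib

namespace Pool.Agent.Results.MP_390e14_lc.NotVariety

universe u

/-- the algebra `(A, imp, mul)` embeds into the full implication semigroup over a transitive relation -/
def Rep (A : Type) (imp mul : A → A → A) : Prop :=
  ∃ (X : Type u) (T : Set (X × X)) (h : A → Set (X × X)),
    (∀ x y z, (x, y) ∈ T → (y, z) ∈ T → (x, z) ∈ T) ∧ Function.Injective h ∧ (∀ a, h a ⊆ T) ∧
    (∀ a b, h (imp a b) = (T \ h a) ∪ h b) ∧
    ∀ a b, h (mul a b) = {p | ∃ y, (p.1, y) ∈ h a ∧ (y, p.2) ∈ h b}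

/-- 0: no pair, 1: the least element, n+2: atom n -/
def tb : List (List ℕ) :=
  [[0, 2, 3, 4, 5, 2, 6, 7, 8],
   [0, 0, 9, 10, 11, 0, 0, 1, 1],
   [0, 0, 0, 12, 13, 0, 0, 0, 0],
   [0, 0, 0, 0, 14, 0, 0, 0, 0],
   [0, 0, 0, 0, 0, 0, 0, 0, 0],
   [0, 0, 0, 1, 15, 0, 1, 0, 0],
   [0, 0, 0, 1, 16, 0, 1, 0, 0],
   [0, 0, 0, 0, 17, 0, 0, 1, 1],
   [0, 0, 0, 0, 14, 0, 0, 0, 0]]

def L (x y : Fin 9) : ℕ := (tb.getD x []).getD y 0

abbrev A := Finset (Fin 16)

def mem (a : A) (x y : Fin 9) : Prop := L x y = 1 ∨ ∃ c ∈ a, L x y = c.val + 2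

instance (a : A) (x y : Fin 9) : Decidable (mem a x y) := by unfold mem; infer_instance

def impA (a b : A) : A := aᶜ ∪ b

def mulA (a b : A) : A :=
  Finset.univ.filter fun c => ∃ x y z, L x z = c.val + 2 ∧ mem a x y ∧ mem b y z

lemma mem_ne {a x y} (h : mem a x y) : L x y ≠ 0 := by
  rcases h with h | ⟨c, _, h⟩ <;> omega

lemma repA : Rep.{0} A impA mulA := by
  have tr : ∀ x y z, L x y ≠ 0 → L y z ≠ 0 → L x z ≠ 0 := by decide +kernel
  have cs : ∀ x y, L x y ≠ 0 → L x y = 1 ∨ ∃ c : Fin 16, L x y = c.val + 2 := by decide +kernel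
  refine ⟨Fin 9, {p | L p.1 p.2 ≠ 0}, fun a => {p | mem a p.1 p.2}, tr, ?_, fun a p h => mem_ne h, ?_, ?_⟩
  · intro a b h
    have ex : ∀ c : Fin 16, ∃ x y, L x y = c.val + 2 := by decide +kernel
    ext c
    obtain ⟨x, y, hc⟩ := ex c
    have : mem a x y ↔ mem b x y := Set.ext_iff.1 h (x, y)
    simpa [mem, hc, Fin.val_inj] using this
  · intro a b
    ext ⟨x, y⟩
    simp only [Set.mem_ofPred_eq, Set.mem_union, Set.mem_sdiff]
    by_cases h : L x y = 0
    · simp [mem, h]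
    · rcases cs x y h with h1 | ⟨c, h1⟩
      · simp [mem, h1]
      · simp [mem, h1, Fin.val_inj, impA]
  · intro a b
    ext ⟨x, z⟩
    simp only [Set.mem_ofPred_eq]
    constructor
    · rintro (h | ⟨c, hc, h⟩)
      · have : ∀ x z, L x z = 1 → ∃ y, L x y = 1 ∧ L y z = 1 := by decide +kernel
        obtain ⟨y, h1, h2⟩ := this x z h
        exact ⟨y, Or.inl h1, Or.inl h2⟩
      · obtain ⟨x', y, z', h1, h2, h3⟩ := (Finset.mem_filter.1 hc).2
        have : ∀ x' y z', L x' y ≠ 0 → L y z' ≠ 0 → L x' z' ≠ 1 → ∀ x z, L x z = L x' z' →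
            x = x' ∧ z = z' := by decide +kernel
        obtain ⟨rfl, rfl⟩ := this x' y z' (mem_ne h2) (mem_ne h3) (by omega) x z (h.trans h1.symm)
        exact ⟨y, h2, h3⟩
    · rintro ⟨y, h1, h2⟩
      rcases cs x z (tr x y z (mem_ne h1) (mem_ne h2)) with h | ⟨c, h⟩
      · exact Or.inl h
      · exact Or.inr ⟨c, Finset.mem_filter.2 ⟨Finset.mem_univ _, x, y, z, h, h1, h2⟩, h⟩

abbrev B := {a : A // 8 ∈ a}

def ph (a : A) : B := ⟨insert 8 a, Finset.mem_insert_self _ _⟩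
def impB (a b : B) : B := ⟨impA a.1 b.1, Finset.mem_union_right _ b.2⟩
def mulB (a b : B) : B := ph (mulA a.1 b.1)

lemma mem_ins {a : A} {x y} : mem (insert 8 a) x y ↔ L x y = 10 ∨ mem a x y := by
  simp only [mem, Finset.mem_insert, exists_eq_or_imp]
  tauto

lemma ph_mul (a b : A) : ph (mulA a b) = mulB (ph a) (ph b) := by
  apply Subtype.ext
  ext c
  simp only [mulB, ph, Finset.mem_insert, mulA, Finset.mem_filter, Finset.mem_univ, true_and, mem_ins]
  refine or_congr_right ⟨fun ⟨x, y, z, h1, h2, h3⟩ => ⟨x, y, z, h1, Or.inr h2, Or.inr h3⟩, ?_⟩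
  rintro ⟨x, y, z, h1, h2 | h2, h3 | h3⟩
  · have : ∀ x y z, L x y = 10 → L y z ≠ 10 := by decide +kernel
    exact absurd h3 (this _ _ _ h2)
  · have : ∀ x y z, L x y = 10 → L y z ≠ 0 → ∃ w, L x w = 1 ∧ L w z = L y z := by decide +kernel
    obtain ⟨w, a1, a2⟩ := this x y z h2 (mem_ne h3)
    exact ⟨x, w, z, h1, Or.inl a1, by unfold mem at h3 ⊢; rwa [a2]⟩
  · have : ∀ x y z, L y z = 10 → L x y ≠ 0 → ∃ w, L w z = 1 ∧ L x w = L x y := by decide +kernel
    obtain ⟨w, a1, a2⟩ := this x y z h3 (mem_ne h2)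
    exact ⟨x, w, z, h1, by unfold mem at h2 ⊢; rwa [a2], Or.inl a1⟩
  · exact ⟨x, y, z, h1, h2, h3⟩

lemma notRepB : ¬ Rep.{u} B impB mulB := by
  rintro ⟨X, T, h, -, inj, sub, hi, hm⟩
  have join : ∀ a b c : B, c.1 ⊆ a.1 ∪ b.1 → ∀ p ∈ h c, p ∈ h a ∨ p ∈ h b := by
    intro a b c hc p hp
    have e1 : impB c (impB (impB a b) b) = impB c c := by
      apply Subtype.ext
      ext x
      have := @hc x
      simp only [impB, impA, Finset.mem_union, Finset.mem_compl] at this ⊢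
      tauto
    have e2 := congrArg (fun s => p ∈ h s) e1
    have := sub c hp
    simp only [hi, Set.mem_union, Set.mem_sdiff, eq_iff_iff] at e2
    tauto
  have mono : ∀ a c : B, c.1 ⊆ a.1 → ∀ p ∈ h c, p ∈ h a := fun a c hc p hp =>
    (join a a c (by simpa using hc) p hp).elim id id
  have meet : ∀ a b : B, a.1 ∩ b.1 ⊆ {8} → ∀ p, p ∈ h a → p ∈ h b → p ∈ h (ph ∅) := by
    intro a b hc p h1 h2
    have := mono (impB b (ph ∅)) a (by
      intro x hx
      have := @hc x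
      simp only [impB, impA, ph, Finset.mem_union, Finset.mem_compl, Finset.mem_inter,
        Finset.mem_singleton, Finset.mem_insert] at this ⊢
      tauto) p h1
    simp only [hi, Set.mem_union, Set.mem_sdiff] at this
    tauto
  have comp : ∀ a b : B, ∀ x y z, (x, y) ∈ h a → (y, z) ∈ h b → (x, z) ∈ h (mulB a b) := by
    intro a b x y z h1 h2
    rw [hm]; exact ⟨y, h1, h2⟩
  have wit : ∀ a b c : B, c.1 ⊆ (mulB a b).1 → ∀ x z, (x, z) ∈ h c →
      ∃ y, (x, y) ∈ h a ∧ (y, z) ∈ h b := by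
    intro a b c hc x z h1
    have := mono _ _ hc _ h1
    rwa [hm] at this
  obtain ⟨⟨x0, z0⟩, r1, r2⟩ : ∃ p, p ∈ h (ph {3}) ∧ p ∉ h (ph ∅) := by
    by_contra hh
    push Not at hh
    have : h (ph {3}) = h (ph ∅) := Set.Subset.antisymm hh (mono _ _ (by decide))
    exact absurd (inj this) (by decide)
  obtain ⟨y, p1, q1⟩ := wit (ph {1}) (ph {11}) _ (by decide +kernel) _ _ r1
  obtain ⟨x, c1, s1⟩ := wit (ph {0}) (ph {7}) _ (by decide +kernel) _ _ p1
  obtain ⟨z, t1, d1⟩ := wit (ph {10}) (ph {12}) _ (by decide +kernel) _ _ q1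
  obtain ⟨w, m1, m2⟩ := wit (ph ∅) (ph ∅) _ (by decide +kernel) _ _ (comp _ _ _ _ _ s1 t1)
  have a1 : (x0, w) ∈ h (ph {4}) := by
    rcases join (ph {4}) (ph {2, 5, 6}) _ (by decide +kernel) _ (comp _ _ _ _ _ c1 m1) with h1 | h1
    · exact h1
    · have h2 := meet _ _ (by decide +kernel) _ (comp _ _ _ _ _ h1 m2) (comp _ _ _ _ _ p1 t1)
      exact absurd (meet _ _ (by decide +kernel) _ r1 (comp _ _ _ _ _ h2 d1)) r2
  have b1 : (w, z0) ∈ h (ph {15}) := by
    rcases join (ph {15}) (ph {9, 13, 14}) _ (by decide +kernel) _ (comp _ _ _ _ _ m2 d1) with h1 | h1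
    · exact h1
    · have h2 := meet _ _ (by decide +kernel) _ (comp _ _ _ _ _ m1 h1) (comp _ _ _ _ _ s1 q1)
      exact absurd (meet _ _ (by decide +kernel) _ r1 (comp _ _ _ _ _ c1 h2)) r2
  exact r2 (meet _ _ (by decide +kernel) _ r1 (comp _ _ _ _ _ a1 b1))

theorem result : ∃ (A B : Type) (impA mulA : A → A → A) (impB mulB : B → B → B) (f : A → B),
    Function.Surjective f ∧ (∀ a b, f (impA a b) = impB (f a) (f b)) ∧
    (∀ a b, f (mulA a b) = mulB (f a) (f b)) ∧ Rep.{0} A impA mulA ∧ ¬ Rep.{u} B impB mulB := by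
  refine ⟨A, B, impA, mulA, impB, mulB, ph, fun b => ⟨b.1, Subtype.ext (Finset.insert_eq_of_mem b.2)⟩,
    ?_, ph_mul, repA, notRepB⟩
  intro a b
  apply Subtype.ext
  ext x
  simp only [ph, impB, impA, Finset.mem_insert, Finset.mem_union, Finset.mem_compl]
  tauto

end Pool.Agent.Results.MP_390e14_lc.NotVariety
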